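import Pool.Agent.N311.SH.Stm

/-!
SH/NF1: the local normal form at infinity of a homeomorphism of the sphere whose square is not the
identity.
-/

set_option autoImplicit false

open Set Metric Filter Topology
open scoped OnePoint

namespace Pool.Agent.N169.SH

open Pool.Agent.N311.SH

theorem inv_of {g : Sph ≃ₜ Sph} {x y : Sph} (h : g x = y) : g⁻¹ y = x := by
  rw [← h]
  exact g.symm_apply_apply x

/-- two different points can be moved to infinity and zero -/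
theorem move (x y : Sph) (h : x ≠ y) : ∃ M : Sph ≃ₜ Sph, M x = ∞ ∧ M y = ((0 : ℂ) : Sph) := by
  -- first: infinity and a finite point
  have h1 : ∀ y : Sph, y ≠ ∞ → ∃ M : Sph ≃ₜ Sph, M ∞ = ∞ ∧ M y = ((0 : ℂ) : Sph) := by
    intro y hy
    induction y using OnePoint.rec with
    | infty => exact absurd rfl hy
    | coe z =>
      refine ⟨tr (-z), tr_infty _, ?_⟩
      rw [tr_coe, add_neg_cancel]
  by_cases hx : x = ∞
  · subst hx
    exact h1 y h.symm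
  · obtain ⟨z, rfl⟩ : ∃ z : ℂ, x = (z : Sph) := by
      induction x using OnePoint.rec with
      | infty => exact absurd rfl hx
      | coe z => exact ⟨z, rfl⟩
    have h2 : (J * tr (-z)) (z : Sph) = ∞ := by
      change J (tr (-z) (z : Sph)) = ∞
      rw [tr_coe, add_neg_cancel, J_zero]
    have h3 : (J * tr (-z)) y ≠ ∞ := by
      rw [← h2]
      intro h4
      exact h ((J * tr (-z)).injective h4).symm
    obtain ⟨M, hM1, hM2⟩ := h1 _ h3
    refine ⟨M * (J * tr (-z)), ?_, hM2⟩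
    change M ((J * tr (-z)) (z : Sph)) = ∞
    rw [h2, hM1]

/-- linearization at infinity -/
theorem step1 (hKL : S_KL) (A : Sph ≃ₜ Sph) (a : ℂ) (h0 : A ∞ = ((0 : ℂ) : Sph))
    (ha : A (a : Sph) = ∞) :
    ∃ (K : Sph ≃ₜ Sph) (R : ℝ) (e : Bool), 0 < R ∧ (K * A * K⁻¹) ∞ = ((0 : ℂ) : Sph) ∧
      (K * A * K⁻¹) (a : Sph) = ∞ ∧
      ∀ w : ℂ, R ≤ ‖w‖ → (K * A * K⁻¹) (w : Sph) = (((cj e w)⁻¹ : ℂ) : Sph) := by
  have he : (0 : ℝ) < (1 + ‖a‖)⁻¹ := by positivity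
  obtain ⟨k, hk, hk0, δ, e, hδ, hf⟩ := hKL (A * J) (by
    change A (J ((0 : ℂ) : Sph)) = _
    rw [J_zero, h0]) (1 + ‖a‖)⁻¹ he
  set L : Sph ≃ₜ Sph := J * ext k * J with hL
  have hLap : ∀ x, L x = J (ext k (J x)) := fun _ => rfl
  have hLinf : L ∞ = ∞ := by
    rw [hLap, J_infty, ext_coe, hk0, J_zero]
  have hL0 : L ((0 : ℂ) : Sph) = ((0 : ℂ) : Sph) := by
    rw [hLap, J_zero, ext_infty, J_infty]
  have hLw : ∀ w : ℂ, ‖w‖ ≤ 1 + ‖a‖ → L (w : Sph) = (w : Sph) := by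
    intro w hw
    by_cases hw0 : w = 0
    · rw [hw0]
      exact hL0
    · rw [hLap, J_coe hw0, ext_coe, hk, J_coe (inv_ne_zero hw0), inv_inv]
      rw [norm_inv]
      exact inv_anti₀ (norm_pos_iff.2 hw0) hw
  refine ⟨L⁻¹, max 1 (2 * δ⁻¹), e, lt_max_of_lt_left one_pos, ?_, ?_, ?_⟩
  · rw [inv_inv]
    change L⁻¹ (A (L ∞)) = _
    rw [hLinf, h0]
    exact inv_of hL0
  · rw [inv_inv]
    change L⁻¹ (A (L (a : Sph))) = _
    rw [hLw a (by linarith), ha]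
    exact inv_of hLinf
  · intro w hw
    have hw1 : 1 ≤ ‖w‖ := (le_max_left _ _).trans hw
    have hw2 : 2 * δ⁻¹ ≤ ‖w‖ := (le_max_right _ _).trans hw
    have hw0 : w ≠ 0 := by
      intro h
      rw [h, norm_zero] at hw1
      linarith
    have hwp : 0 < ‖w‖ := norm_pos_iff.2 hw0
    have hlt : ‖w⁻¹‖ < δ := by
      rw [norm_inv]
      rw [inv_lt_comm₀ hwp hδ]
      have : 0 < δ⁻¹ := inv_pos.2 hδ
      linarith
    rw [inv_inv]
    change L⁻¹ (A (L (w : Sph))) = _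
    have h1 : A (L (w : Sph)) = ((cj e w⁻¹ : ℂ) : Sph) := by
      rw [hLap, J_coe hw0, ext_coe]
      exact hf w⁻¹ hlt
    rw [h1, cj_inv]
    apply inv_of
    apply hLw
    rw [norm_inv, norm_cj]
    have h2 : ‖w‖⁻¹ ≤ 1 := inv_le_one_of_one_le₀ hw1
    have h3 : 0 ≤ ‖a‖ := norm_nonneg a
    linarith

/-- linearization at the pole -/
theorem step2 (hKL : S_KL) (A : Sph ≃ₜ Sph) (a : ℂ) (ha0 : a ≠ 0) (h0 : A ∞ = ((0 : ℂ) : Sph))
    (ha : A (a : Sph) = ∞) (R : ℝ) (e : Bool)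
    (hR : ∀ w : ℂ, R ≤ ‖w‖ → A (w : Sph) = (((cj e w)⁻¹ : ℂ) : Sph)) :
    ∃ (K : Sph ≃ₜ Sph) (R' : ℝ) (e' : Bool), NForm (K * A * K⁻¹) R' a e e' := by
  have hap : 0 < ‖a‖ := norm_pos_iff.2 ha0
  obtain ⟨k, hk, hk0, δ, e', hδ, hf⟩ := hKL (J * A * tr a) (by
    change J (A (tr a ((0 : ℂ) : Sph))) = _
    rw [tr_coe, zero_add, ha, J_infty]) (‖a‖ / 4) (by positivity)
  set L : Sph ≃ₜ Sph := tr a * ext k * tr (-a) with hL
  have hLap : ∀ x, L x = tr a (ext k (tr (-a) x)) := fun _ => rfl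
  have hLinf : L ∞ = ∞ := by
    rw [hLap, tr_infty, ext_infty, tr_infty]
  have hLw : ∀ w : ℂ, ‖a‖ / 4 ≤ ‖w - a‖ → L (w : Sph) = (w : Sph) := by
    intro w hw
    rw [hLap, tr_coe, ext_coe, tr_coe, hk _ (by rwa [← sub_eq_add_neg]), neg_add_cancel_right]
  have hLa : L (a : Sph) = (a : Sph) := by
    rw [hLap, tr_coe, ext_coe, tr_coe, add_neg_cancel, hk0, zero_add]
  have hL0 : L ((0 : ℂ) : Sph) = ((0 : ℂ) : Sph) := hLw 0 (by
    rw [zero_sub, norm_neg]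
    linarith)
  -- the radius
  set R' : ℝ := max (max R 1) (max (2 * δ⁻¹) (max (2 * ‖a‖) (2 * ‖a‖⁻¹))) with hR'
  have hR1 : R ≤ R' := (le_max_left _ _).trans (le_max_left _ _)
  have hR2 : 1 ≤ R' := (le_max_right _ _).trans (le_max_left _ _)
  have hR3 : 2 * δ⁻¹ ≤ R' := (le_max_left _ _).trans (le_max_right _ _)
  have hR4 : 2 * ‖a‖ ≤ R' :=
    (le_max_left _ _).trans ((le_max_right _ _).trans (le_max_right _ _))
  have hR5 : 2 * ‖a‖⁻¹ ≤ R' :=
    (le_max_right _ _).trans ((le_max_right _ _).trans (le_max_right _ _))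
  have hA2inf : (L⁻¹ * A * L) ∞ = ((0 : ℂ) : Sph) := by
    change L⁻¹ (A (L ∞)) = _
    rw [hLinf, h0]
    exact inv_of hL0
  have hA2a : (L⁻¹ * A * L) (a : Sph) = ∞ := by
    change L⁻¹ (A (L (a : Sph))) = _
    rw [hLa, ha]
    exact inv_of hLinf
  refine ⟨L⁻¹, R', e', by linarith, ?_, ?_, ?_⟩
  · rw [inv_inv]
    exact hA2inf
  · rw [inv_inv]
    exact inv_of hA2a
  · intro w hw
    rw [inv_inv]
    have hw1 : R ≤ ‖w‖ := hR1.trans hw
    have hw2 : 1 ≤ ‖w‖ := hR2.trans hw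
    have hw3 : 2 * δ⁻¹ ≤ ‖w‖ := hR3.trans hw
    have hw4 : 2 * ‖a‖ ≤ ‖w‖ := hR4.trans hw
    have hw5 : 2 * ‖a‖⁻¹ ≤ ‖w‖ := hR5.trans hw
    have hwp : 0 < ‖w‖ := by linarith
    have hw0 : w ≠ 0 := norm_pos_iff.1 hwp
    have hlt : ‖w‖⁻¹ < δ := by
      rw [inv_lt_comm₀ hwp hδ]
      have : 0 < δ⁻¹ := inv_pos.2 hδ
      linarith
    have hle : ‖w‖⁻¹ ≤ ‖a‖ / 2 := by
      have h1 : (‖a‖ / 2)⁻¹ ≤ ‖w‖ := by
        have : (‖a‖ / 2)⁻¹ = 2 * ‖a‖⁻¹ := by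
          rw [inv_div]
          ring
        rw [this]
        exact hw5
      exact inv_le_of_inv_le₀ (by positivity) h1
    have hLww : L (w : Sph) = (w : Sph) := by
      apply hLw
      have h1 : ‖w‖ - ‖a‖ ≤ ‖w - a‖ := norm_sub_norm_le w a
      linarith
    constructor
    · change L⁻¹ (A (L (w : Sph))) = _
      rw [hLww, hR w hw1]
      apply inv_of
      apply hLw
      have h1 : ‖a‖ - ‖(cj e w)⁻¹‖ ≤ ‖a - (cj e w)⁻¹‖ := norm_sub_norm_le _ _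
      rw [norm_inv, norm_cj] at h1
      rw [norm_sub_rev]
      linarith
    · apply inv_of
      change L⁻¹ (A (L ((a + (cj e' w)⁻¹ : ℂ) : Sph))) = _
      set y : ℂ := (cj e' w)⁻¹ with hy
      have hyn : ‖y‖ < δ := by
        rw [hy, norm_inv, norm_cj]
        exact hlt
      have hcy : cj e' y = w⁻¹ := by
        rw [hy, cj_inv, cj_cj]
      have h1 : L ((a + y : ℂ) : Sph) = tr a ((k y : ℂ) : Sph) := by
        rw [hLap, tr_coe, ext_coe]
        congr 3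
        ring
      have h2 : A (tr a ((k y : ℂ) : Sph)) = (w : Sph) := by
        have h3 : J (A (tr a ((k y : ℂ) : Sph))) = ((cj e' y : ℂ) : Sph) := hf y hyn
        have h4 := congrArg J h3
        rw [J_J, hcy, J_coe (inv_ne_zero hw0), inv_inv] at h4
        exact h4
      rw [h1, h2]
      exact inv_of hLww

theorem nf1 (h : S_KL) : S_NF1 := by
  intro A hA
  obtain ⟨x, hx⟩ : ∃ x, A (A x) ≠ x := by
    by_contra hcon
    push Not at hcon
    apply hA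
    ext x : 1
    exact hcon x
  have hx1 : x ≠ A x := by
    intro h1
    apply hx
    rw [← h1, ← h1]
  obtain ⟨M, hM1, hM2⟩ := move x (A x) hx1
  -- the first conjugate
  set A0 : Sph ≃ₜ Sph := M * A * M⁻¹ with hA0
  have hA0ap : ∀ z, A0 (M z) = M (A z) := by
    intro z
    change M (A (M.symm (M z))) = _
    rw [M.symm_apply_apply]
  have h0 : A0 ∞ = ((0 : ℂ) : Sph) := by
    rw [← hM1, hA0ap, hM2]
  have hA0inv : A0 (M (A.symm x)) = ∞ := by
    rw [hA0ap, A.apply_symm_apply, hM1]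
  obtain ⟨a, ha⟩ : ∃ a : ℂ, M (A.symm x) = (a : Sph) := by
    rcases OnePoint.ne_infty_iff_exists.1 (show M (A.symm x) ≠ ∞ by
      intro h1
      rw [h1, h0] at hA0inv
      exact OnePoint.coe_ne_infty _ hA0inv) with ⟨a, ha⟩
    exact ⟨a, ha.symm⟩
  have ha0 : a ≠ 0 := by
    intro h1
    rw [h1, ← hM2] at ha
    have h2 : A.symm x = A x := M.injective ha
    apply hx
    rw [← h2, A.apply_symm_apply]
  rw [ha] at hA0inv
  obtain ⟨K1, R1, e, hR1, k1, k2, k3⟩ := step1 h A0 a h0 hA0inv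
  obtain ⟨K2, R2, e', hN⟩ := step2 h (K1 * A0 * K1⁻¹) a ha0 k1 k2 R1 e k3
  refine ⟨K2 * K1 * M, R2, a, e, e', ?_⟩
  have : K2 * K1 * M * A * (K2 * K1 * M)⁻¹ = K2 * (K1 * A0 * K1⁻¹) * K2⁻¹ := by
    rw [hA0]
    group
  rw [this]
  exact hN

end Pool.Agent.N169.SH
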